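import Pool.Agent.E8helper49.DD.Stm

/-! Project DD (MP_bfbd14_co), piece `S_NF`: normal form of a good configuration. -/

open Set Pool.Agent.E8helper49.DD

namespace Pool.Agent.E8helper95.DD

theorem det4_eq (a b c d : Fin 4 → ℝ) : det4 a b c d =
    a 0 * (b 1 * (c 2 * d 3 - c 3 * d 2) - b 2 * (c 1 * d 3 - c 3 * d 1)
      + b 3 * (c 1 * d 2 - c 2 * d 1))
    - a 1 * (b 0 * (c 2 * d 3 - c 3 * d 2) - b 2 * (c 0 * d 3 - c 3 * d 0)
      + b 3 * (c 0 * d 2 - c 2 * d 0))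
    + a 2 * (b 0 * (c 1 * d 3 - c 3 * d 1) - b 1 * (c 0 * d 3 - c 3 * d 0)
      + b 3 * (c 0 * d 1 - c 1 * d 0))
    - a 3 * (b 0 * (c 1 * d 2 - c 2 * d 1) - b 1 * (c 0 * d 2 - c 2 * d 0)
      + b 2 * (c 0 * d 1 - c 1 * d 0)) := by
  unfold det4
  rw [Matrix.det_succ_row_zero]
  simp [Fin.sum_univ_four, Matrix.det_fin_three, Fin.succAbove, Matrix.submatrix]
  norm_num [Fin.lt_def]
  ring

theorem det4_vecMul (a b c d : Fin 4 → ℝ) (A : Matrix (Fin 4) (Fin 4) ℝ) :
    det4 (Matrix.vecMul a A) (Matrix.vecMul b A) (Matrix.vecMul c A) (Matrix.vecMul d A) =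
      det4 a b c d * A.det := by
  unfold det4
  rw [← Matrix.det_mul]
  congr 1
  ext i j
  fin_cases i <;> simp [Matrix.mul_apply, Matrix.vecMul, dotProduct]

theorem det4_smul (a b c d : Fin 4 → ℝ) (s t u v : ℝ) :
    det4 (s • a) (t • b) (u • c) (v • d) = s * t * u * v * det4 a b c d := by
  simp only [det4_eq, Pi.smul_apply, smul_eq_mul]
  ring

theorem ar_eq (x y z : Fin 12 → ℝ) (a b c : Fin 12) :
    ar x y a b c = det4 (lift x y z a) (lift x y z b) (lift x y z c) e4 := by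
  simp [det4_eq, ar, lift, e4]
  ring

theorem vol_eq (x y z : Fin 12 → ℝ) (a b c d : Fin 12) :
    vol x y z a b c d = det4 (lift x y z a) (lift x y z b) (lift x y z c) (lift x y z d) := by
  simp [det4_eq, vol, lift]
  ring

theorem V_nonneg {h : Fin 12 → Fin 4 → ℝ} {e : Fin 4 → ℝ} (hg : Good h e) (T : Fin 20)
    (l : Fin 12) : 0 ≤ det4 (h (face T 0)) (h (face T 1)) (h (face T 2)) (h l) := by
  by_cases hl : ∀ r, face T r ≠ l
  · exact (hg.1 T l hl).le
  · push Not at hl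
    obtain ⟨r, rfl⟩ := hl
    apply le_of_eq
    fin_cases r <;> simp only [Fin.zero_eta, Fin.mk_one, Fin.reduceFinMk, det4_eq] <;> ring

theorem not_in_all : ∀ T : Fin 20, T ≠ 0 → (∀ r, face T r ≠ 0) ∨ (∀ r, face T r ≠ 1) ∨
    (∀ r, face T r ≠ 2) := by decide

theorem ev {ι : Type} [Finite ι] (p q : ι → ℝ) (hp : ∀ k, 0 < p k) :
    ∀ᶠ ε in nhdsWithin (0:ℝ) (Ioi 0), ∀ k, 0 < p k - ε * q k := by
  rw [Filter.eventually_all]
  intro k
  have hc : Continuous fun ε : ℝ => p k - ε * q k := by fun_prop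
  have h1 : ∀ᶠ ε in nhds (0:ℝ), 0 < p k - ε * q k := by
    apply hc.continuousAt.eventually_const_lt
    simpa using hp k
  exact h1.filter_mono nhdsWithin_le_nhds

/-- the three special covectors and the auxiliary one -/
theorem exists_u {h : Fin 12 → Fin 4 → ℝ} {e : Fin 4 → ℝ} (hg : Good h e) :
    ∃ u : Fin 4 → ℝ, det4 (h 0) (h 1) (h 2) u < 0 ∧
      (∀ T, T ≠ 0 → 0 < det4 (h (face T 0)) (h (face T 1)) (h (face T 2)) u) ∧
      ∀ l, 3 ≤ l → det4 (h l) (h 1) (h 2) u < 0 ∧ det4 (h 0) (h l) (h 2) u < 0 ∧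
        det4 (h 0) (h 1) (h l) u < 0 := by
  have hD : ∀ l : {l : Fin 12 // 3 ≤ l}, 0 < det4 (h 0) (h 1) (h 2) (h l) := by
    rintro ⟨l, hl⟩
    have := hg.1 0 l (by revert hl; revert l; decide)
    simpa [face] using this
  have e1 := ev (ι := {T : Fin 20 // T ≠ 0})
    (fun T => det4 (h (face T 0)) (h (face T 1)) (h (face T 2)) (h 0) +
      det4 (h (face T 0)) (h (face T 1)) (h (face T 2)) (h 1) +
      det4 (h (face T 0)) (h (face T 1)) (h (face T 2)) (h 2))
    (fun T => det4 (h (face T 0)) (h (face T 1)) (h (face T 2)) e) (by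
      rintro ⟨T, hT⟩
      have a0 := V_nonneg hg T 0
      have a1 := V_nonneg hg T 1
      have a2 := V_nonneg hg T 2
      rcases not_in_all T hT with h3 | h3 | h3
      · have := hg.1 T 0 h3
        simp only
        linarith
      · have := hg.1 T 1 h3
        simp only
        linarith
      · have := hg.1 T 2 h3
        simp only
        linarith)
  have e2 := ev (fun l : {l : Fin 12 // 3 ≤ l} => det4 (h 0) (h 1) (h 2) (h l))
    (fun l => - det4 (h l) (h 1) (h 2) e) hD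
  have e3 := ev (fun l : {l : Fin 12 // 3 ≤ l} => det4 (h 0) (h 1) (h 2) (h l))
    (fun l => - det4 (h 0) (h l) (h 2) e) hD
  have e4 := ev (fun l : {l : Fin 12 // 3 ≤ l} => det4 (h 0) (h 1) (h 2) (h l))
    (fun l => - det4 (h 0) (h 1) (h l) e) hD
  obtain ⟨ε, ⟨⟨⟨⟨h1, h2⟩, h3⟩, h4⟩, h5⟩⟩ :=
    ((((e1.and e2).and e3).and e4).and self_mem_nhdsWithin).exists
  have hε : 0 < ε := h5
  refine ⟨h 0 + h 1 + h 2 - ε • e, ?_, ?_, ?_⟩
  · have h0 := hg.2 0
    simp only [face, Matrix.cons_val_zero, Matrix.cons_val_one, Matrix.cons_val] at h0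
    have : det4 (h 0) (h 1) (h 2) (h 0 + h 1 + h 2 - ε • e) =
        - (ε * det4 (h 0) (h 1) (h 2) e) := by
      simp only [det4_eq, Pi.smul_apply, smul_eq_mul, Pi.add_apply, Pi.sub_apply]
      ring
    rw [this]
    have := mul_pos hε h0
    linarith
  · intro T hT
    have := h1 ⟨T, hT⟩
    simp only at this
    refine lt_of_lt_of_eq this ?_
    simp only [det4_eq, Pi.smul_apply, smul_eq_mul, Pi.add_apply, Pi.sub_apply]
    ring
  · intro l hl
    have k2 := h2 ⟨l, hl⟩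
    have k3 := h3 ⟨l, hl⟩
    have k4 := h4 ⟨l, hl⟩
    simp only at k2 k3 k4
    refine ⟨?_, ?_, ?_⟩
    · rw [← neg_pos]
      refine lt_of_lt_of_eq k2 ?_
      simp only [det4_eq, Pi.smul_apply, smul_eq_mul, Pi.add_apply, Pi.sub_apply]
      ring
    · rw [← neg_pos]
      refine lt_of_lt_of_eq k3 ?_
      simp only [det4_eq, Pi.smul_apply, smul_eq_mul, Pi.add_apply, Pi.sub_apply]
      ring
    · rw [← neg_pos]
      refine lt_of_lt_of_eq k4 ?_
      simp only [det4_eq, Pi.smul_apply, smul_eq_mul, Pi.add_apply, Pi.sub_apply]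
      ring

theorem exists_A {a b c u : Fin 4 → ℝ} (hd : det4 a b c u < 0) :
    ∃ A : Matrix (Fin 4) (Fin 4) ℝ, 0 < A.det ∧ Matrix.vecMul a A = ![0, 0, 1, 0] ∧
      Matrix.vecMul b A = ![0, 1, 1, 0] ∧ Matrix.vecMul c A = ![1, 0, 1, 0] ∧
      Matrix.vecMul u A = ![0, 0, 0, 1] := by
  set B : Matrix (Fin 4) (Fin 4) ℝ := Matrix.of ![a, b, c, u] with hB
  set C : Matrix (Fin 4) (Fin 4) ℝ :=
    Matrix.of ![![0, 0, 1, 0], ![0, 1, 1, 0], ![1, 0, 1, 0], ![0, 0, 0, 1]] with hC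
  have hBd : B.det < 0 := hd
  have hCd : C.det = -1 := by
    have := det4_eq ![0, 0, 1, 0] ![0, 1, 1, 0] ![1, 0, 1, 0] ![0, 0, 0, 1]
    have h2 : C.det = det4 ![0, 0, 1, 0] ![0, 1, 1, 0] ![1, 0, 1, 0] ![0, 0, 0, 1] := rfl
    rw [h2, this]
    simp
  have hBu : IsUnit B.det := isUnit_iff_ne_zero.2 hBd.ne
  have hBA : B * (B⁻¹ * C) = C := Matrix.mul_nonsing_inv_cancel_left B C hBu
  have hrow : ∀ i, Matrix.vecMul (B i) (B⁻¹ * C) = C i := by
    intro i
    have := congrFun hBA i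
    rw [← this]
    rfl
  refine ⟨B⁻¹ * C, ?_, hrow 0, hrow 1, hrow 2, hrow 3⟩
  have : B.det * (B⁻¹ * C).det = -1 := by
    rw [← Matrix.det_mul, hBA, hCd]
  nlinarith

theorem t_NF : S_NF := by
  intro h e hg
  obtain ⟨u, hu0, hu1, hu2⟩ := exists_u hg
  obtain ⟨A, hA, a0, a1, a2, au⟩ := exists_A hu0
  have hthird : ∀ l, 0 < Matrix.vecMul (h l) A 2 := by
    intro l
    have hc : l = 0 ∨ l = 1 ∨ l = 2 ∨ 3 ≤ l := by revert l; decide
    rcases hc with rfl | rfl | rfl | hl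
    · rw [a0]; simp
    · rw [a1]; simp
    · rw [a2]; simp
    · obtain ⟨k1, k2, k3⟩ := hu2 l hl
      have m1 := det4_vecMul (h l) (h 1) (h 2) u A
      have m2 := det4_vecMul (h 0) (h l) (h 2) u A
      have m3 := det4_vecMul (h 0) (h 1) (h l) u A
      rw [a1, a2, au, det4_eq] at m1
      rw [a0, a2, au, det4_eq] at m2
      rw [a0, a1, au, det4_eq] at m3
      simp at m1 m2 m3
      have n1 := mul_pos (neg_pos.2 k1) hA
      have n2 := mul_pos (neg_pos.2 k2) hA
      have n3 := mul_pos (neg_pos.2 k3) hA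
      nlinarith
  set s : Fin 12 → ℝ := fun l => (Matrix.vecMul (h l) A 2)⁻¹ with hs
  have hspos : ∀ l, 0 < s l := fun l => inv_pos.2 (hthird l)
  have hs2 : ∀ l, s l * Matrix.vecMul (h l) A 2 = 1 := fun l =>
    inv_mul_cancel₀ (hthird l).ne'
  set x : Fin 12 → ℝ := fun l => s l * Matrix.vecMul (h l) A 0 with hx
  set y : Fin 12 → ℝ := fun l => s l * Matrix.vecMul (h l) A 1 with hy
  set z : Fin 12 → ℝ := fun l => s l * Matrix.vecMul (h l) A 3 with hz
  have hlift : ∀ i, lift x y z i = s i • Matrix.vecMul (h i) A := by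
    intro i
    funext j
    fin_cases j
    · simp [lift, hx]
    · simp [lift, hy]
    · simp only [lift, Pi.smul_apply, smul_eq_mul]
      exact (hs2 i).symm
    · simp [lift, hz]
  have hcomb : ∀ a b c : Fin 12, ∀ d : Fin 4 → ℝ, ∀ t : ℝ,
      det4 (lift x y z a) (lift x y z b) (lift x y z c) (t • Matrix.vecMul d A) =
        (s a * s b * s c * t * A.det) * det4 (h a) (h b) (h c) d := by
    intro a b c d t
    rw [hlift, hlift, hlift, det4_smul, det4_vecMul]
    ring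
  refine ⟨x, y, z, ?_, ?_, ?_, ?_, A, s, hA, hspos, hlift⟩
  · simp [Outer, hx, hy, hs, a0, a1, a2]
  · simp [OuterZ, hz, a0, a1, a2]
  · intro T hT
    rw [ar_eq x y z]
    have h1 : (e4 : Fin 4 → ℝ) = (1:ℝ) • Matrix.vecMul u A := by
      rw [au, one_smul]; rfl
    rw [h1, hcomb]
    have := hu1 T hT
    have := hspos (face T 0)
    have := hspos (face T 1)
    have := hspos (face T 2)
    positivity
  · intro T hT l hl
    rw [vol_eq]
    have h1 := hcomb (face T 0) (face T 1) (face T 2) (h l) (s l)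
    rw [← hlift] at h1
    rw [h1]
    have := hg.1 T l hl
    have := hspos (face T 0)
    have := hspos (face T 1)
    have := hspos (face T 2)
    have := hspos l
    positivity

end Pool.Agent.E8helper95.DD
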