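import Pool.Agent.E8helper95.DD.NF

/-! Project DD (MP_bfbd14_co), pieces `S_LIFT`, `S_FRAME`, `S_TRANS`. -/

open Set Pool.Agent.E8helper49.DD

namespace Pool.Agent.E8helper95.DD

theorem t_FRAME : S_FRAME := by
  intro h e hg
  set B : Matrix (Fin 4) (Fin 4) ℝ := Matrix.of ![h 0, h 1, h 2, e] with hB
  have h0 := hg.2 0
  simp only [face, Matrix.cons_val_zero, Matrix.cons_val_one, Matrix.cons_val] at h0
  have hd : 0 < B.det := h0
  have hu : IsUnit B.det := isUnit_iff_ne_zero.2 hd.ne'
  refine ⟨B⁻¹, ?_, ?_⟩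
  · have := Matrix.isUnit_nonsing_inv_det B hu
    exact this.ne_zero
  · have h1 : B * B⁻¹ = 1 := Matrix.mul_nonsing_inv B hu
    have h2 : Matrix.vecMul (B 3) B⁻¹ = (1 : Matrix (Fin 4) (Fin 4) ℝ) 3 := by
      rw [← h1]; rfl
    have h3 : B 3 = e := rfl
    rw [h3] at h2
    rw [h2]
    funext j
    fin_cases j <;> simp [e4, Matrix.one_apply]

theorem t_TRANS : S_TRANS := by
  intro h q A s hA hs hq P hP
  obtain ⟨e, A0, hg, hA0, he, hPol⟩ := hP
  have hu : IsUnit A.det := isUnit_iff_ne_zero.2 hA.ne'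
  have hmul : A * (A⁻¹ * A0) = A0 := Matrix.mul_nonsing_inv_cancel_left A A0 hu
  have hcomb : ∀ a b c : Fin 12, ∀ d : Fin 4 → ℝ, ∀ t : ℝ,
      det4 (q a) (q b) (q c) (t • Matrix.vecMul d A) =
        (s a * s b * s c * t * A.det) * det4 (h a) (h b) (h c) d := by
    intro a b c d t
    rw [hq, hq, hq, det4_smul, det4_vecMul]
    ring
  refine ⟨Matrix.vecMul e A, A⁻¹ * A0, ⟨?_, ?_⟩, ?_, ?_, ?_⟩
  · intro T l hl
    have h1 := hcomb (face T 0) (face T 1) (face T 2) (h l) (s l)
    rw [← hq] at h1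
    rw [h1]
    have := hg.1 T l hl
    have := hs (face T 0)
    have := hs (face T 1)
    have := hs (face T 2)
    have := hs l
    positivity
  · intro T
    have h1 := hcomb (face T 0) (face T 1) (face T 2) e 1
    rw [one_smul] at h1
    rw [h1]
    have := hg.2 T
    have := hs (face T 0)
    have := hs (face T 1)
    have := hs (face T 2)
    positivity
  · rw [Matrix.det_mul]
    exact mul_ne_zero (Matrix.isUnit_nonsing_inv_det A hu).ne_zero hA0
  · rw [Matrix.vecMul_vecMul, hmul, he]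
  · rw [hPol]
    ext x
    show (∀ i, _) ↔ (∀ i, _)
    apply forall_congr'
    intro i
    show 0 ≤ Matrix.vecMul (h i) A0 ⬝ᵥ hat x ↔ 0 ≤ Matrix.vecMul (q i) (A⁻¹ * A0) ⬝ᵥ hat x
    rw [hq i, Matrix.smul_vecMul, Matrix.vecMul_vecMul, hmul, smul_dotProduct, smul_eq_mul]
    exact (mul_nonneg_iff_of_pos_left (hs i)).symm

/-- the determinant as a linear function of the last row -/
noncomputable def det4Lin (a b c : Fin 4 → ℝ) : (Fin 4 → ℝ) →ₗ[ℝ] ℝ where
  toFun := det4 a b c
  map_add' u v := by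
    simp only [det4_eq, Pi.add_apply]
    ring
  map_smul' r v := by
    simp only [det4_eq, Pi.smul_apply, smul_eq_mul, RingHom.id_apply]
    ring

theorem exists_not_in : ∀ T : Fin 20, ∃ l : Fin 12, ∀ r, face T r ≠ l := by decide

theorem t_LIFT : S_LIFT := by
  intro x y z ho hz hpos hconv hzneg
  obtain ⟨o1, o2, o3, o4, o5, o6⟩ := ho
  obtain ⟨z0, z1, z2⟩ := hz
  have h1 : ∀ T l, (∀ r, face T r ≠ l) →
      0 < det4 (lift x y z (face T 0)) (lift x y z (face T 1)) (lift x y z (face T 2))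
        (lift x y z l) := by
    intro T l hl
    by_cases hT : T = 0
    · subst hT
      have hl3 : 3 ≤ l := by revert hl; revert l; decide
      have := hzneg l hl3
      rw [← vol_eq]
      simp only [face, Matrix.cons_val_zero, Matrix.cons_val_one, Matrix.cons_val, vol, o1, o2, o3,
        o4, o5, o6, z0, z1, z2]
      linarith
    · rw [← vol_eq]
      exact hconv T hT l hl
  have h2 : ∀ T l, 0 ≤ det4 (lift x y z (face T 0)) (lift x y z (face T 1))
      (lift x y z (face T 2)) (lift x y z l) := by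
    intro T l
    by_cases hl : ∀ r, face T r ≠ l
    · exact (h1 T l hl).le
    · push Not at hl
      obtain ⟨r, rfl⟩ := hl
      apply le_of_eq
      fin_cases r <;> simp only [Fin.zero_eta, Fin.mk_one, Fin.reduceFinMk, det4_eq] <;> ring
  refine ⟨∑ l, lift x y z l, h1, ?_⟩
  intro T
  have h3 : det4 (lift x y z (face T 0)) (lift x y z (face T 1)) (lift x y z (face T 2))
      (∑ l, lift x y z l) = ∑ l, det4 (lift x y z (face T 0)) (lift x y z (face T 1))
        (lift x y z (face T 2)) (lift x y z l) := by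
    exact map_sum (det4Lin (lift x y z (face T 0)) (lift x y z (face T 1))
      (lift x y z (face T 2))) _ _
  rw [h3]
  obtain ⟨l, hl⟩ := exists_not_in T
  exact Finset.sum_pos' (fun l _ => h2 T l) ⟨l, Finset.mem_univ _, h1 T l hl⟩

end Pool.Agent.E8helper95.DD
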